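import Mathlib
import Pool.Agent.R94.Coker
import Pool.Agent.R94.Circ

set_option autoImplicit false

/-!
The parity of the `2`-rank of the sandpile group of a Cayley graph of `F_2^r`.
-/

namespace Pool.Agent.Results.MP_8ee885_co.TwoRankParity

open scoped TensorProduct
open Matrix

/-- The group `F_2^r`. -/
abbrev W (r : ℕ) := Fin r → ZMod 2

/-- `μ_u`, the number of indices `i` with `v_i = u`. -/
def mult {r n : ℕ} (v : Fin n → W r) (u : W r) : ℕ :=
  (Finset.univ.filter (fun i => v i = u)).card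

/-- `v_1, …, v_n` are nonzero, span `F_2^r`, and the gcd of the positive multiplicities is `1`
(every common divisor of the positive multiplicities is `1`). -/
structure Admissible {r n : ℕ} (v : Fin n → W r) : Prop where
  ne_zero : ∀ i, v i ≠ 0
  span : Submodule.span (ZMod 2) (Set.range v) = ⊤
  gcd_eq_one : ∀ k : ℕ, (∀ u : W r, 0 < mult v u → k ∣ mult v u) → k = 1

/-- The Laplacian of the Cayley multigraph `G(F_2^r, v)`. -/
def lap {r n : ℕ} (v : Fin n → W r) : Matrix (W r) (W r) ℤ := Matrix.of fun w w' =>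
  if w = w' then (n : ℤ) else -((Finset.univ.filter (fun i => w + v i = w')).card : ℤ)

/-- The cokernel `Z^V / L Z^V` of an integer matrix. -/
def Coker {V : Type} [Fintype V] (L : Matrix V V ℤ) : Type :=
  (V → ℤ) ⧸ LinearMap.range L.mulVecLin

noncomputable instance {V : Type} [Fintype V] (L : Matrix V V ℤ) : AddCommGroup (Coker L) :=
  inferInstanceAs (AddCommGroup ((V → ℤ) ⧸ LinearMap.range L.mulVecLin))

/-- The torsion subgroup of the cokernel of an integer matrix. -/
def CokerTorsion {V : Type} [Fintype V] (L : Matrix V V ℤ) : Type :=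
  Submodule.torsion ℤ (Coker L)

noncomputable instance {V : Type} [Fintype V] (L : Matrix V V ℤ) :
    AddCommGroup (CokerTorsion L) :=
  inferInstanceAs (AddCommGroup (Submodule.torsion ℤ (Coker L)))

/-- `dim_{F_2} A ⊗ Z/2`. -/
noncomputable def twoRank (A : Type) [AddCommGroup A] : ℕ :=
  Module.finrank (ZMod 2) (ZMod 2 ⊗[ℤ] A)

/-- `d(M) = dim_{F_2} K(G) ⊗ Z/2`, where the sandpile group `K(G)` is the torsion subgroup of the
cokernel of the Laplacian. -/
noncomputable def d {r n : ℕ} (v : Fin n → W r) : ℕ := twoRank (CokerTorsion (lap v))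

/-- The eigenvalue `λ_u = n - ∑_i (-1)^{u · v_i}`. -/
def eig {r n : ℕ} (v : Fin n → W r) (u : W r) : ℤ :=
  (n : ℤ) - ∑ i, (-1) ^ (u ⬝ᵥ v i).val

/-- The `2`-adic valuations of the `λ_u`, `u ≠ 0`, are all equal. -/
def AllEqual {r n : ℕ} (v : Fin n → W r) : Prop :=
  ∀ u u' : W r, u ≠ 0 → u' ≠ 0 → padicValInt 2 (eig v u) = padicValInt 2 (eig v u')

/-- The statement Q1. -/
def Q1 : Prop := ∀ (r n : ℕ) (v : Fin n → W r), 1 ≤ r → Admissible v →
  (¬ AllEqual v → Odd (d v)) ∧ (AllEqual v → d v = 2 ^ r - 2)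

section aux

variable {r n : ℕ}

theorem W_add_self (w : W r) : w + w = 0 := by
  funext i
  exact Pool.Agent.R94.Circ.zmod2_add_self _

theorem add_eq_iff (w x w' : W r) : w + x = w' ↔ x = w + w' := by
  constructor
  · rintro rfl
    rw [← add_assoc, W_add_self, zero_add]
  · rintro rfl
    rw [← add_assoc, W_add_self, zero_add]

/-- The function `c` whose group matrix is `L mod 2`. -/
def cfun (v : Fin n → W r) (u : W r) : ZMod 2 :=
  (mult v u : ZMod 2) + if u = 0 then (n : ZMod 2) else 0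

theorem mult_zero (v : Fin n → W r) (hv : ∀ i, v i ≠ 0) : mult v 0 = 0 := by
  rw [mult, Finset.card_eq_zero, Finset.filter_eq_empty_iff]
  intro i _
  exact hv i

theorem lap_mod (v : Fin n → W r) (hv : ∀ i, v i ≠ 0) :
    (lap v).map (Int.cast : ℤ → ZMod 2) = Pool.Agent.R94.Circ.circ (cfun v) := by
  ext w w'
  rw [Matrix.map_apply, Pool.Agent.R94.Circ.circ_apply, lap, Matrix.of_apply, cfun]
  by_cases h : w = w'
  · subst h
    rw [if_pos rfl, W_add_self, mult_zero v hv, if_pos rfl]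
    simp
  · have h2 : w + w' ≠ 0 := by
      intro h3
      apply h
      have := (add_eq_iff w w' 0).1 h3
      rw [add_zero] at this
      exact this.symm
    rw [if_neg h, if_neg h2, add_zero, mult]
    simp only [add_eq_iff]
    push_cast
    have : ∀ a : ZMod 2, -a = a := by decide
    exact this _

theorem lap_mulVec (v : Fin n → W r) (hv : ∀ i, v i ≠ 0) (f : W r → ℤ) (w : W r) :
    (lap v *ᵥ f) w = ∑ i, (f w - f (w + v i)) := by
  have h1 : ∀ w', lap v w w' = (if w = w' then (n : ℤ) else 0) -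
      ∑ i, (if w + v i = w' then (1 : ℤ) else 0) := by
    intro w'
    rw [lap, Matrix.of_apply]
    by_cases h : w = w'
    · subst h
      rw [if_pos rfl, if_pos rfl]
      have : ∀ i, w + v i ≠ w := by
        intro i h
        exact hv i (left_eq_add.1 h.symm)
      simp [this]
    · rw [if_neg h, if_neg h, zero_sub, Finset.sum_boole]
  rw [Matrix.mulVec, dotProduct]
  simp only [h1, sub_mul, Finset.sum_sub_distrib, Finset.sum_mul]
  rw [Finset.sum_comm]
  simp

theorem const_of_ker (v : Fin n → W r) (hv : ∀ i, v i ≠ 0)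
    (hs : Submodule.span (ZMod 2) (Set.range v) = ⊤) (f : W r → ℤ) (hf : lap v *ᵥ f = 0) :
    ∀ w, f w = f 0 := by
  obtain ⟨m, -, hm⟩ := Finset.exists_max_image (Finset.univ : Finset (W r)) f ⟨0, Finset.mem_univ _⟩
  have hmax : ∀ w, f w ≤ f m := fun w => hm w (Finset.mem_univ _)
  have hstep : ∀ w, f w = f m → ∀ i, f (w + v i) = f m := by
    intro w hw i
    have h0 : ∑ i, (f w - f (w + v i)) = 0 := by
      rw [← lap_mulVec v hv, hf]; rfl
    have h1 := (Finset.sum_eq_zero_iff_of_nonneg (fun i _ => by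
      have := hmax (w + v i); rw [hw]; linarith)).1 h0 i (Finset.mem_univ _)
    linarith
  have hall : ∀ x ∈ Submodule.span (ZMod 2) (Set.range v), ∀ w, f w = f m → f (w + x) = f m := by
    intro x hx
    induction hx using Submodule.span_induction with
    | mem x hx =>
      obtain ⟨i, rfl⟩ := hx
      intro w hw
      exact hstep w hw i
    | zero => intro w hw; rwa [add_zero]
    | add x y _ _ hx hy =>
      intro w hw
      rw [← add_assoc]
      exact hy _ (hx _ hw)
    | smul a x _ hx =>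
      intro w hw
      have : a = 0 ∨ a = 1 := by revert a; decide
      rcases this with rfl | rfl
      · rwa [zero_smul, add_zero]
      · rw [one_smul]; exact hx w hw
  have hfin : ∀ w, f w = f m := by
    intro w
    have := hall (m + w) (by rw [hs]; trivial) m rfl
    rwa [← add_assoc, W_add_self, zero_add] at this
  intro w
  rw [hfin w, hfin 0]

theorem finrank_coker (v : Fin n → W r) (hv : ∀ i, v i ≠ 0)
    (hs : Submodule.span (ZMod 2) (Set.range v) = ⊤) :
    Module.finrank ℤ ((W r → ℤ) ⧸ LinearMap.range (lap v).mulVecLin) = 1 := by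
  have h1 := Submodule.finrank_quotient_add_finrank (LinearMap.range (lap v).mulVecLin)
  have h2 := Submodule.finrank_quotient_add_finrank (LinearMap.ker (lap v).mulVecLin)
  rw [LinearEquiv.finrank_eq (lap v).mulVecLin.quotKerEquivRange] at h2
  have h3 : LinearMap.ker (lap v).mulVecLin = Submodule.span ℤ {(1 : W r → ℤ)} := by
    ext f
    rw [LinearMap.mem_ker, Matrix.mulVecLin_apply, Submodule.mem_span_singleton]
    constructor
    · intro hf
      refine ⟨f 0, ?_⟩
      funext w
      simp [const_of_ker v hv hs f hf w]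
    · rintro ⟨a, rfl⟩
      funext w
      rw [lap_mulVec v hv]
      simp
  have h4 : Module.finrank ℤ (Submodule.span ℤ {(1 : W r → ℤ)}) = 1 := by
    have := LinearEquiv.finrank_eq (LinearEquiv.toSpanNonzeroSingleton ℤ (W r → ℤ) 1 one_ne_zero)
    rw [← this, Module.finrank_self]
  rw [h3, h4] at h2
  omega

theorem card_W : Fintype.card (W r) = 2 ^ r := by
  rw [Fintype.card_fun, ZMod.card, Fintype.card_fin]

theorem d_add (v : Fin n → W r) (hv : ∀ i, v i ≠ 0)
    (hs : Submodule.span (ZMod 2) (Set.range v) = ⊤) :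
    d v + 1 + (Pool.Agent.R94.Circ.circ (cfun v)).rank = 2 ^ r := by
  have h1 := Pool.Agent.R94.finrank_tensor_coker 2 (lap v)
  rw [Pool.Agent.R94.finrank_tensor_torsion 2, finrank_coker v hv hs, lap_mod v hv, card_W] at h1
  exact h1

theorem sum_mult (v : Fin n → W r) : ∑ u, mult v u = n := by
  have := Finset.card_eq_sum_card_fiberwise (s := (Finset.univ : Finset (Fin n)))
    (t := (Finset.univ : Finset (W r))) (f := v) (fun _ _ => Finset.mem_coe.2 (Finset.mem_univ _))
  rw [Finset.card_univ, Fintype.card_fin] at this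
  exact this.symm

theorem zmod2_odd (k : ℕ) : (k : ZMod 2) = 1 ↔ Odd k := by
  rw [ZMod.natCast_eq_one_iff_odd]

theorem cfun_eq_one_iff (v : Fin n → W r) (hr : 1 ≤ r) (hv : ∀ i, v i ≠ 0) :
    cfun v = 1 ↔ ∀ u, u ≠ 0 → Odd (mult v u) := by
  constructor
  · intro h u hu
    have := congrFun h u
    rw [cfun, if_neg hu, add_zero, Pi.one_apply] at this
    exact (zmod2_odd _).1 this
  · intro h
    have hne : ∀ u, u ≠ 0 → cfun v u = 1 := by
      intro u hu
      rw [cfun, if_neg hu, add_zero]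
      exact (zmod2_odd _).2 (h u hu)
    have h0 : cfun v 0 = 1 := by
      rw [cfun, if_pos rfl, mult_zero v hv, Nat.cast_zero, zero_add]
      have h1 : ((∑ u, mult v u : ℕ) : ZMod 2) = (n : ZMod 2) := by rw [sum_mult]
      rw [← h1, Nat.cast_sum, ← Finset.add_sum_erase _ _ (Finset.mem_univ (0 : W r)),
        mult_zero v hv, Nat.cast_zero, zero_add]
      have h2 : ∀ u ∈ (Finset.univ : Finset (W r)).erase 0, (mult v u : ZMod 2) = 1 := by
        intro u hu
        exact (zmod2_odd _).2 (h u (Finset.mem_erase.1 hu).1)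
      rw [Finset.sum_congr rfl h2, Finset.sum_const, Finset.card_erase_of_mem (Finset.mem_univ _),
        Finset.card_univ, card_W, nsmul_eq_mul, mul_one, zmod2_odd]
      have h3 : Even (2 ^ r) := (Nat.even_pow).2 ⟨even_two, by omega⟩
      obtain ⟨k, hk⟩ := h3
      have h4 : 0 < 2 ^ r := by positivity
      refine ⟨k - 1, ?_⟩
      omega
    funext u
    by_cases hu : u = 0
    · rw [hu]; exact h0
    · exact hne u hu

theorem rank_circ_one : (Pool.Agent.R94.Circ.circ (1 : W r → ZMod 2)).rank = 1 := by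
  have h1 : Pool.Agent.R94.Circ.circ (1 : W r → ZMod 2) = Matrix.vecMulVec 1 1 := by
    ext i j
    simp [Pool.Agent.R94.Circ.circ, Matrix.vecMulVec]
  have h2 : (Pool.Agent.R94.Circ.circ (1 : W r → ZMod 2)).rank ≤ 1 := by
    rw [h1]; exact Matrix.rank_vecMulVec_le _ _
  have h3 : (Pool.Agent.R94.Circ.circ (1 : W r → ZMod 2)).rank ≠ 0 := by
    intro h
    rw [Matrix.rank, Submodule.finrank_eq_zero, LinearMap.range_eq_bot] at h
    have := congrFun (LinearMap.congr_fun h (Pi.single 0 1)) 0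
    simp [Pool.Agent.R94.Circ.circ] at this
  omega

theorem d_of_allOdd (v : Fin n → W r) (hr : 1 ≤ r) (ha : Admissible v)
    (h : ∀ u, u ≠ 0 → Odd (mult v u)) : d v = 2 ^ r - 2 := by
  have h1 := d_add v ha.ne_zero ha.span
  rw [(cfun_eq_one_iff v hr ha.ne_zero).2 h, rank_circ_one] at h1
  omega

theorem d_of_not_allOdd (v : Fin n → W r) (hr : 1 ≤ r) (ha : Admissible v)
    (h : ¬ ∀ u, u ≠ 0 → Odd (mult v u)) : Odd (d v) := by
  have h1 := d_add v ha.ne_zero ha.span
  have h2 : cfun v ≠ 1 := fun h3 => h ((cfun_eq_one_iff v hr ha.ne_zero).1 h3)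
  have h3 := Pool.Agent.R94.Circ.even_rank_circ W_add_self (cfun v) h2
  have h4 : Even (2 ^ r) := (Nat.even_pow).2 ⟨even_two, by omega⟩
  obtain ⟨a, ha⟩ := h3
  obtain ⟨b, hb⟩ := h4
  refine ⟨b - a - 1, ?_⟩
  omega

/-! ### Fourier inversion -/

/-- The sign character. -/
def χ (a : ZMod 2) : ℤ := (-1) ^ a.val

theorem χ_add (a b : ZMod 2) : χ (a + b) = χ a * χ b := by
  revert a b; decide

theorem χ_odd (a : ZMod 2) : Odd (χ a) := by
  revert a; decide

theorem sum_χ (x : W r) (hx : x ≠ 0) : ∑ u : W r, χ (u ⬝ᵥ x) = 0 := by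
  obtain ⟨j, hj⟩ := Function.ne_iff.1 hx
  have hj1 : x j = 1 := by
    have : ∀ a : ZMod 2, a ≠ 0 → a = 1 := by decide
    exact this _ hj
  refine Finset.sum_involution (fun u _ => u + Pi.single j 1) ?_ ?_ ?_ ?_
  · intro u _
    rw [add_dotProduct, χ_add, single_dotProduct, hj1]
    have : χ (1 * 1) = -1 := by decide
    rw [this]; ring
  · intro u _ _ h
    have h2 := left_eq_add.1 h.symm
    have h3 := congrFun h2 j
    simp at h3
  · intro u _; exact Finset.mem_univ _
  · intro u _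
    rw [add_assoc, W_add_self, add_zero]

theorem eig_eq (v : Fin n → W r) (u : W r) : eig v u = ∑ i, (1 - χ (u ⬝ᵥ v i)) := by
  rw [eig, Finset.sum_sub_distrib]
  simp [χ]

theorem fourier (v : Fin n → W r) (w : W r) (hw : w ≠ 0) :
    ∑ u, eig v u * χ (u ⬝ᵥ w) = -(2 ^ r * (mult v w : ℤ)) := by
  have h1 : ∀ u, eig v u * χ (u ⬝ᵥ w) = ∑ i, (χ (u ⬝ᵥ w) - χ (u ⬝ᵥ (v i + w))) := by
    intro u
    rw [eig_eq, Finset.sum_mul]
    refine Finset.sum_congr rfl fun i _ => ?_
    rw [dotProduct_add, χ_add]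
    ring
  simp only [h1]
  rw [Finset.sum_comm]
  have h2 : ∀ i, ∑ u : W r, (χ (u ⬝ᵥ w) - χ (u ⬝ᵥ (v i + w))) =
      if v i = w then -(2 : ℤ) ^ r else 0 := by
    intro i
    rw [Finset.sum_sub_distrib, sum_χ w hw]
    by_cases h : v i = w
    · rw [if_pos h, h, W_add_self]
      simp [χ]
    · rw [if_neg h, sum_χ, sub_zero]
      intro h3
      apply h
      have := (add_eq_iff (v i) w 0).1 h3
      rw [add_zero] at this
      exact this.symm
  simp only [h2]
  rw [← Finset.sum_filter, Finset.sum_const, mult, nsmul_eq_mul]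
  ring

theorem eig_pos (v : Fin n → W r) (hs : Submodule.span (ZMod 2) (Set.range v) = ⊤)
    (u : W r) (hu : u ≠ 0) : eig v u ≠ 0 := by
  intro h
  apply hu
  rw [eig_eq] at h
  have hχ : ∀ a : ZMod 2, 0 ≤ 1 - χ a := by decide
  have hχ2 : ∀ a : ZMod 2, 1 - χ a = 0 → a = 0 := by decide
  have h1 := (Finset.sum_eq_zero_iff_of_nonneg (fun i _ => hχ _)).1 h
  have h2 : ∀ i, u ⬝ᵥ v i = 0 := fun i => hχ2 _ (h1 i (Finset.mem_univ _))
  have h3 : ∀ x ∈ Submodule.span (ZMod 2) (Set.range v), u ⬝ᵥ x = 0 := by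
    intro x hx
    induction hx using Submodule.span_induction with
    | mem x hx => obtain ⟨i, rfl⟩ := hx; exact h2 i
    | zero => exact dotProduct_zero _
    | add x y _ _ hx hy => rw [dotProduct_add, hx, hy, add_zero]
    | smul a x _ hx => rw [dotProduct_smul, hx, smul_zero]
  funext j
  have := h3 (Pi.single j 1) (by rw [hs]; trivial)
  simpa using this

theorem odd_sum_int {ι : Type*} (s : Finset ι) (f : ι → ℤ) (hf : ∀ x ∈ s, Odd (f x))
    (hs : Odd s.card) : Odd (∑ x ∈ s, f x) := by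
  choose! g hg using hf
  rw [Finset.sum_congr rfl hg, Finset.sum_add_distrib, ← Finset.mul_sum, Finset.sum_const,
    nsmul_eq_mul, mul_one]
  exact (even_two_mul _).add_odd (by exact_mod_cast hs)

theorem allOdd_of_allEqual (v : Fin n → W r) (hr : 1 ≤ r) (ha : Admissible v)
    (h : AllEqual v) : ∀ u, u ≠ 0 → Odd (mult v u) := by
  have h10 : (1 : W r) ≠ 0 := by
    intro h0
    have := congrFun h0 ⟨0, hr⟩
    simp at this
  set e := padicValInt 2 (eig v 1) with he
  have hodd : ∀ u, u ≠ 0 → ∃ o : ℤ, Odd o ∧ eig v u = 2 ^ e * o := by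
    intro u hu
    have hval : padicValInt 2 (eig v u) = e := h u 1 hu h10
    have hnz := eig_pos v ha.span u hu
    have h1 : (2 : ℤ) ^ e ∣ eig v u := by
      have := (padicValInt_dvd_iff (p := 2) e (eig v u)).2 (Or.inr (by rw [hval]))
      exact_mod_cast this
    obtain ⟨o, ho⟩ := h1
    refine ⟨o, ?_, ho⟩
    by_contra hno
    rw [Int.not_odd_iff_even] at hno
    obtain ⟨t, ht⟩ := hno
    have h2 : (2 : ℤ) ^ (e + 1) ∣ eig v u := ⟨t, by rw [ho, ht]; ring⟩
    have h3 := (padicValInt_dvd_iff (p := 2) (e + 1) (eig v u)).1 (by exact_mod_cast h2)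
    rcases h3 with h3 | h3
    · exact hnz h3
    · omega
  choose! o ho1 ho2 using hodd
  have heig0 : eig v 0 = 0 := by
    rw [eig_eq]
    simp [χ]
  have key : ∀ w, w ≠ 0 → ∃ s : ℤ, Odd s ∧ 2 ^ r * (mult v w : ℤ) = 2 ^ e * s := by
    intro w hw
    have h1 := fourier v w hw
    rw [← Finset.add_sum_erase _ _ (Finset.mem_univ (0 : W r)), heig0, zero_mul, zero_add] at h1
    have h2 : ∑ u ∈ (Finset.univ : Finset (W r)).erase 0, eig v u * χ (u ⬝ᵥ w) =
        2 ^ e * ∑ u ∈ (Finset.univ : Finset (W r)).erase 0, o u * χ (u ⬝ᵥ w) := by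
      rw [Finset.mul_sum]
      refine Finset.sum_congr rfl fun u hu => ?_
      rw [ho2 u (Finset.mem_erase.1 hu).1]
      ring
    refine ⟨-∑ u ∈ (Finset.univ : Finset (W r)).erase 0, o u * χ (u ⬝ᵥ w), ?_, ?_⟩
    · rw [odd_neg]
      apply odd_sum_int _ _ (fun u hu => (ho1 u (Finset.mem_erase.1 hu).1).mul (χ_odd _))
      rw [Finset.card_erase_of_mem (Finset.mem_univ _), Finset.card_univ, card_W]
      have h3 : Even (2 ^ r) := (Nat.even_pow).2 ⟨even_two, by omega⟩
      obtain ⟨k, hk⟩ := h3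
      have h4 : 0 < 2 ^ r := by positivity
      exact ⟨k - 1, by omega⟩
    · rw [mul_neg, ← h2, h1, neg_neg]
  rcases lt_trichotomy e r with hlt | heq | hgt
  · exfalso
    obtain ⟨s, hs, h1⟩ := key 1 h10
    obtain ⟨k, hk⟩ := Nat.exists_eq_add_of_lt hlt
    have h5 : (2 : ℤ) ^ r = 2 ^ e * 2 ^ (k + 1) := by rw [hk]; ring
    have h2 : (2 : ℤ) ^ e * (2 ^ (k + 1) * (mult v 1 : ℤ)) = 2 ^ e * s := by
      rw [← h1, h5]; ring
    have h3 := mul_left_cancel₀ (by positivity) h2
    have h4 : Even s := ⟨2 ^ k * (mult v 1 : ℤ), by rw [← h3]; ring⟩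
    exact (Int.not_even_iff_odd.2 hs) h4
  · intro u hu
    obtain ⟨s, hs, h1⟩ := key u hu
    rw [heq] at h1
    have h3 := mul_left_cancel₀ (by positivity) h1
    have h4 : Odd ((mult v u : ℕ) : ℤ) := by rw [h3]; exact hs
    exact_mod_cast h4
  · exfalso
    have : (2 : ℕ) = 1 := by
      apply ha.gcd_eq_one
      intro u hpos
      have hu : u ≠ 0 := by
        rintro rfl
        rw [mult_zero v ha.ne_zero] at hpos
        exact lt_irrefl _ hpos
      obtain ⟨s, hs, h1⟩ := key u hu
      obtain ⟨k, hk⟩ := Nat.exists_eq_add_of_lt hgt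
      have h5 : (2 : ℤ) ^ e = 2 ^ r * 2 ^ (k + 1) := by rw [hk]; ring
      have h2 : (2 : ℤ) ^ r * (mult v u : ℤ) = 2 ^ r * (2 ^ (k + 1) * s) := by
        rw [h1, h5]; ring
      have h3 := mul_left_cancel₀ (by positivity) h2
      have h4 : (2 : ℤ) ∣ (mult v u : ℤ) := ⟨2 ^ k * s, by rw [h3]; ring⟩
      exact_mod_cast h4
    omega

/-! ### The counterexample with multiplicities `1, 1, 3` -/

/-- `M = (e_1, e_2, e_1 + e_2, e_1 + e_2, e_1 + e_2)` in `F_2^2`. -/
def ex : Fin 5 → W 2 := ![![1, 0], ![0, 1], ![1, 1], ![1, 1], ![1, 1]]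

theorem ex_admissible : Admissible ex where
  ne_zero := by decide
  span := by
    rw [eq_top_iff]
    intro x _
    have h1 : (![1, 0] : W 2) ∈ Submodule.span (ZMod 2) (Set.range ex) :=
      Submodule.subset_span ⟨0, rfl⟩
    have h2 : (![0, 1] : W 2) ∈ Submodule.span (ZMod 2) (Set.range ex) :=
      Submodule.subset_span ⟨1, rfl⟩
    have h3 : x = x 0 • ![1, 0] + x 1 • ![0, 1] := by
      funext i
      fin_cases i <;> simp
    rw [h3]
    exact Submodule.add_mem _ (Submodule.smul_mem _ _ h1) (Submodule.smul_mem _ _ h2)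
  gcd_eq_one := by
    intro k hk
    have h1 : mult ex ![1, 0] = 1 := by decide
    have := hk ![1, 0] (by rw [h1]; exact one_pos)
    rw [h1] at this
    exact Nat.dvd_one.1 this

theorem ex_odd : ∀ u : W 2, u ≠ 0 → Odd (mult ex u) := by
  decide

theorem ex_not_allEqual : ¬ AllEqual ex := by
  intro h
  have h1 := h ![1, 0] ![1, 1] (by decide) (by decide)
  have h2 : eig ex ![1, 0] = 8 := by decide
  have h3 : eig ex ![1, 1] = 4 := by decide
  rw [h2, h3] at h1
  have h4 : padicValInt 2 8 = 3 := by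
    have : (8 : ℤ) = ((2 ^ 3 : ℕ) : ℤ) := by norm_num
    rw [this, padicValInt.of_nat, padicValNat.prime_pow]
  have h5 : padicValInt 2 4 = 2 := by
    have : (4 : ℤ) = ((2 ^ 2 : ℕ) : ℤ) := by norm_num
    rw [this, padicValInt.of_nat, padicValNat.prime_pow]
  rw [h4, h5] at h1
  omega

end aux

/-- Q1 is false (first clause, already for `r = 2`); its second clause is true; and the correct
dichotomy is: `d(M) = 2^r - 2` if all `μ_u`, `u ≠ 0`, are odd, and `d(M)` is odd otherwise. -/
theorem result :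
    ¬ Q1 ∧
    (∀ (r n : ℕ) (v : Fin n → W r), 1 ≤ r → Admissible v → AllEqual v → d v = 2 ^ r - 2) ∧
    (∀ (r n : ℕ) (v : Fin n → W r), 1 ≤ r → Admissible v →
      ((∀ u, u ≠ 0 → Odd (mult v u)) → d v = 2 ^ r - 2) ∧
      ((¬ ∀ u, u ≠ 0 → Odd (mult v u)) → Odd (d v))) := by
  refine ⟨?_, ?_, ?_⟩
  · intro h
    have h1 := (h 2 5 ex (by norm_num) ex_admissible).1 ex_not_allEqual
    rw [d_of_allOdd ex (by norm_num) ex_admissible ex_odd] at h1
    exact absurd h1 (by decide)
  · intro r n v hr ha he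
    exact d_of_allOdd v hr ha (allOdd_of_allEqual v hr ha he)
  · intro r n v hr ha
    exact ⟨d_of_allOdd v hr ha, d_of_not_allOdd v hr ha⟩

end Pool.Agent.Results.MP_8ee885_co.TwoRankParity
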